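import Mathlib

/-!
# The `1/2`-chromatic number of the continuous complete graph
-/

namespace Pool.Agent.Results.MP_4befb3_co.CompleteGraphs

open Finset

/-! ### Continuous graphs -/

/-- A point of the continuous graph `Γ(G)`, in barycentric coordinates: the coordinates are
nonnegative, their sum is `1`, and all of them but those of one vertex or of the two ends of one edge
vanish. The point at distance `t` from `u` on the edge `uv` has `x u = 1 - t` and `x v = t`. -/
structure Pt {V : Type} [Fintype V] (G : SimpleGraph V) where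
  /-- the coordinates -/
  x : V → ℝ
  /-- the coordinates are nonnegative -/
  nonneg : ∀ v, 0 ≤ x v
  /-- the coordinates sum to one -/
  sum_eq : ∑ v, x v = 1
  /-- the point is a vertex or lies on an edge -/
  supp : ∃ u v, (u = v ∨ G.Adj u v) ∧ ∀ w, w ≠ u → w ≠ v → x w = 0

variable {V : Type} [Fintype V] {G : SimpleGraph V}

/-- The lengths of the shortest routes between two points of `Γ(G)`: the segment between them, if
they lie on a common edge, and for every vertex `a` that is an end of the edge of `p` (or equal to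
`p`) and every vertex `b` that is an end of the edge of `q` (or equal to `q`) the shortest route from
`p` to `q` that leaves the edge of `p` at `a` and enters the edge of `q` at `b`. -/
def lengths (p q : Pt G) : Set ℝ :=
  {l | (∃ u v, (u = v ∨ G.Adj u v) ∧ (∀ w, w ≠ u → w ≠ v → p.x w = 0 ∧ q.x w = 0) ∧
      l = |p.x u - q.x u|) ∨
    (∃ a b, p.x a ≠ 0 ∧ q.x b ≠ 0 ∧ G.Reachable a b ∧
      l = (1 - p.x a) + (G.dist a b : ℝ) + (1 - q.x b))}

/-- The distance of two points of `Γ(G)` which are joined by a path. -/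
noncomputable def distance (p q : Pt G) : ℝ := sInf (lengths p q)

/-- The closed ball in `Γ(G)`. (Points of different components have no distance and are in no common
ball; complete graphs are connected.) -/
def ball (p : Pt G) (r : ℝ) : Set (Pt G) := {q | (lengths p q).Nonempty ∧ distance p q ≤ r}

/-- `Γ(G)` is `(r, c)`-colourable: some family of balls of radius `r` covers `Γ(G)` and can be coloured
with `c` colours such that different balls which meet have different colours. -/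
def Colourable (G : SimpleGraph V) (r : ℝ) (c : ℕ) : Prop :=
  ∃ (F : Set (Set (Pt G))) (f : F → Fin c),
    (∀ B ∈ F, ∃ p, B = ball p r) ∧ (⋃₀ F = Set.univ) ∧
    ∀ B B' : F, B ≠ B' → ((B : Set (Pt G)) ∩ B').Nonempty → f B ≠ f B'

/-- The `r`-chromatic number of `Γ(G)`. -/
noncomputable def chi (G : SimpleGraph V) (r : ℝ) : ℕ := sInf {c | Colourable G r c}

/-! ### Balls of radius `1/2` in complete graphs -/

theorem exists_pos (p : Pt G) : ∃ a, p.x a ≠ 0 := by
  by_contra h
  push Not at h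
  have := p.sum_eq
  simp [h] at this

theorem le_one (p : Pt G) (a : V) : p.x a ≤ 1 := by
  rw [← p.sum_eq]
  exact Finset.single_le_sum (fun i _ => p.nonneg i) (Finset.mem_univ a)

theorem add_le_one (p : Pt G) {a b : V} (h : a ≠ b) : p.x a + p.x b ≤ 1 := by
  classical
  rw [← p.sum_eq, ← Finset.sum_pair h]
  exact Finset.sum_le_sum_of_subset_of_nonneg (Finset.subset_univ _) (fun i _ _ => p.nonneg i)

theorem lengths_finite (p q : Pt G) : (lengths p q).Finite := by
  classical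
  have h : lengths p q ⊆ (Set.range fun u => |p.x u - q.x u|) ∪
      (Set.range fun ab : V × V => (1 - p.x ab.1) + (G.dist ab.1 ab.2 : ℝ) + (1 - q.x ab.2)) := by
    rintro l (⟨u, v, _, _, rfl⟩ | ⟨a, b, _, _, _, rfl⟩)
    · exact Or.inl ⟨u, rfl⟩
    · exact Or.inr ⟨(a, b), rfl⟩
  exact ((Set.finite_range _).union (Set.finite_range _)).subset h

theorem mem_ball_iff {n : ℕ} (p q : Pt (⊤ : SimpleGraph (Fin n))) :
    q ∈ ball p (1 / 2) ↔
      (∃ u v, (∀ w, w ≠ u → w ≠ v → p.x w = 0 ∧ q.x w = 0) ∧ |p.x u - q.x u| ≤ 1 / 2) ∨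
      ∃ a, 3 / 2 ≤ p.x a + q.x a := by
  classical
  have hne : (lengths p q).Nonempty := by
    obtain ⟨a, ha⟩ := exists_pos p
    obtain ⟨b, hb⟩ := exists_pos q
    refine ⟨_, Or.inr ⟨a, b, ha, hb, ?_, rfl⟩⟩
    by_cases h : a = b
    · subst h; exact SimpleGraph.Reachable.refl _
    · exact SimpleGraph.Adj.reachable (by simpa using h)
  have key : q ∈ ball p (1 / 2) ↔ ∃ l ∈ lengths p q, l ≤ 1 / 2 := by
    constructor
    · rintro ⟨_, h⟩
      exact ⟨_, hne.csInf_mem (lengths_finite p q), h⟩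
    · rintro ⟨l, hl, h⟩
      exact ⟨hne, le_trans (csInf_le (lengths_finite p q).bddBelow hl) h⟩
  rw [key]
  constructor
  · rintro ⟨l, (⟨u, v, h1, h2, rfl⟩ | ⟨a, b, ha, hb, hr, rfl⟩), hl⟩
    · exact Or.inl ⟨u, v, h2, hl⟩
    · right
      have h1 := le_one p a
      have h2 := le_one q b
      by_cases h : a = b
      · subst h
        rw [SimpleGraph.dist_self] at hl
        push_cast at hl
        exact ⟨a, by linarith⟩
      · exfalso
        have h3 : 0 < (⊤ : SimpleGraph (Fin n)).dist a b := hr.pos_dist_of_ne h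
        have h4 : (1 : ℝ) ≤ (⊤ : SimpleGraph (Fin n)).dist a b := by exact_mod_cast h3
        linarith
  · rintro (⟨u, v, h1, h2⟩ | ⟨a, ha⟩)
    · refine ⟨_, Or.inl ⟨u, v, ?_, h1, rfl⟩, h2⟩
      by_cases h : u = v
      · exact Or.inl h
      · exact Or.inr (by simpa using h)
    · have h1 := le_one p a
      have h2 := le_one q a
      refine ⟨(1 - p.x a) + ((⊤ : SimpleGraph (Fin n)).dist a a : ℝ) + (1 - q.x a),
        Or.inr ⟨a, a, ?_, ?_, SimpleGraph.Reachable.refl _, rfl⟩, ?_⟩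
      · intro h; rw [h] at ha; linarith
      · intro h; rw [h] at ha; linarith
      · rw [SimpleGraph.dist_self]
        push_cast
        linarith

/-- The point at distance `s` from `u` on the edge `uv` of a complete graph (the vertex `u` if
`u = v`). -/
def pt {n : ℕ} (u v : Fin n) (s : ℝ) (h0 : 0 ≤ s) (h1 : s ≤ 1) : Pt (⊤ : SimpleGraph (Fin n)) where
  x w := (if w = u then 1 - s else 0) + (if w = v then s else 0)
  nonneg w := by split_ifs <;> linarith
  sum_eq := by
    rw [Finset.sum_add_distrib, Finset.sum_ite_eq' Finset.univ, Finset.sum_ite_eq' Finset.univ]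
    simp
  supp := by
    refine ⟨u, v, ?_, ?_⟩
    · by_cases h : u = v
      · exact Or.inl h
      · exact Or.inr (by simpa using h)
    · intro w h2 h3
      simp [h2, h3]

theorem sum_two {n : ℕ} (q : Pt (⊤ : SimpleGraph (Fin n))) {u v : Fin n} (huv : u ≠ v)
    (h : ∀ w, w ≠ u → w ≠ v → q.x w = 0) : q.x u + q.x v = 1 := by
  rw [← q.sum_eq, ← Finset.sum_pair huv]
  apply Finset.sum_subset (Finset.subset_univ _)
  intro w _ hw
  rw [Finset.mem_insert, Finset.mem_singleton, not_or] at hw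
  exact h w hw.1 hw.2

theorem mem_ball_pt {n : ℕ} {u v : Fin n} (huv : u ≠ v) {s : ℝ} (h0 : 0 ≤ s) (h1 : s ≤ 1)
    (hs : s ≤ 1 / 2) (q : Pt (⊤ : SimpleGraph (Fin n))) :
    q ∈ ball (pt u v s h0 h1) (1 / 2) ↔
      ((∀ w, w ≠ u → w ≠ v → q.x w = 0) ∧ 1 / 2 - s ≤ q.x u) ∨ 1 / 2 + s ≤ q.x u := by
  have pu : (pt u v s h0 h1).x u = 1 - s := by simp [pt, huv]
  have pv : (pt u v s h0 h1).x v = s := by simp [pt, huv.symm]
  have pw : ∀ w, w ≠ u → w ≠ v → (pt u v s h0 h1).x w = 0 := by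
    intro w hw hw'; simp [pt, hw, hw']
  rw [mem_ball_iff]
  constructor
  · rintro (⟨a, b, h2, h3⟩ | ⟨a, ha⟩)
    · have hu : u = a ∨ u = b := by
        by_contra h
        rw [not_or] at h
        have := (h2 u h.1 h.2).1
        rw [pu] at this
        linarith
      rcases h0.eq_or_lt with h4 | h4
      · -- a vertex
        right
        rcases hu with rfl | rfl
        · rw [pu, abs_le] at h3
          linarith [h3.2]
        · by_cases hab : a = u
          · subst hab
            rw [pu, abs_le] at h3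
            linarith [h3.2]
          · have hpa : (pt u v s h0 h1).x a = 0 := by
              by_cases hav : a = v
              · rw [hav, pv]; exact h4.symm
              · exact pw a hab hav
            rw [hpa, abs_le] at h3
            have := sum_two q hab (fun w hw hw' => (h2 w hw hw').2)
            linarith [h3.1]
      · have hv : v = a ∨ v = b := by
          by_contra h
          rw [not_or] at h
          have := (h2 v h.1 h.2).1
          rw [pv] at this
          linarith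
        left
        rcases hu with rfl | rfl <;> rcases hv with rfl | rfl
        · exact absurd rfl huv
        · refine ⟨fun w hw hw' => (h2 w hw hw').2, ?_⟩
          rw [pu, abs_le] at h3
          linarith [h3.2]
        · refine ⟨fun w hw hw' => (h2 w hw' hw).2, ?_⟩
          rw [pv, abs_le] at h3
          have := sum_two q huv (fun w hw hw' => (h2 w hw' hw).2)
          linarith [h3.1]
        · exact absurd rfl huv
    · have hq := le_one q a
      by_cases hau : a = u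
      · subst hau
        rw [pu] at ha
        right
        linarith
      · by_cases hav : a = v
        · subst hav
          rw [pv] at ha
          left
          have hq1 : q.x a = 1 := by linarith
          have hz : ∀ w, w ≠ a → q.x w = 0 := by
            intro w hw
            have := add_le_one q hw
            have := q.nonneg w
            linarith
          refine ⟨fun w _ hw => hz w hw, ?_⟩
          rw [hz u huv]
          linarith
        · rw [pw a hau hav] at ha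
          linarith
  · rintro (⟨h2, h3⟩ | h2)
    · left
      refine ⟨u, v, fun w hw hw' => ⟨pw w hw hw', h2 w hw hw'⟩, ?_⟩
      rw [pu, abs_le]
      have := le_one q u
      constructor <;> linarith
    · right
      refine ⟨u, ?_⟩
      rw [pu]
      linarith

theorem Pt.ext {p q : Pt G} (h : ∀ w, p.x w = q.x w) : p = q := by
  cases p; cases q
  congr
  funext w
  exact h w

theorem exists_rep {n : ℕ} (hn : 2 ≤ n) (p : Pt (⊤ : SimpleGraph (Fin n))) :
    ∃ (u v : Fin n) (s : ℝ) (h0 : 0 ≤ s) (h1 : s ≤ 1), u ≠ v ∧ s ≤ 1 / 2 ∧ p = pt u v s h0 h1 := by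
  have main : ∀ u v : Fin n, u ≠ v → (∀ w, w ≠ u → w ≠ v → p.x w = 0) → p.x v ≤ p.x u →
      ∃ (u v : Fin n) (s : ℝ) (h0 : 0 ≤ s) (h1 : s ≤ 1), u ≠ v ∧ s ≤ 1 / 2 ∧
        p = pt u v s h0 h1 := by
    intro u v huv h hle
    have hs := sum_two p huv h
    have hv := p.nonneg v
    refine ⟨u, v, p.x v, hv, le_one p v, huv, by linarith, Pt.ext fun w => ?_⟩
    show p.x w = (if w = u then 1 - p.x v else 0) + (if w = v then p.x v else 0)
    by_cases hwu : w = u
    · subst hwu
      rw [if_pos rfl, if_neg huv]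
      linarith
    · by_cases hwv : w = v
      · subst hwv
        rw [if_neg hwu, if_pos rfl, zero_add]
      · rw [if_neg hwu, if_neg hwv, h w hwu hwv, add_zero]
  obtain ⟨u, v, _, h⟩ := p.supp
  by_cases huv : u = v
  · subst huv
    have : Nontrivial (Fin n) := Fin.nontrivial_iff_two_le.2 hn
    obtain ⟨z, hz⟩ := exists_ne u
    apply main u z hz.symm (fun w hw _ => h w hw hw)
    rw [h z hz hz]
    exact p.nonneg u
  · rcases le_total (p.x v) (p.x u) with h1 | h1
    · exact main u v huv h h1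
    · exact main v u (Ne.symm huv) (fun w hw hw' => h w hw' hw) h1

/-! ### The lower bound -/

/-- A family of balls with a colouring, together with chosen centres. -/
structure Fam (n c : ℕ) where
  F : Set (Set (Pt (⊤ : SimpleGraph (Fin n))))
  f : Set (Pt (⊤ : SimpleGraph (Fin n))) → Fin c
  cover : ∀ q, ∃ B ∈ F, q ∈ B
  proper : ∀ B ∈ F, ∀ B' ∈ F, ∀ q, f B = f B' → q ∈ B → q ∈ B' → B = B'
  U : Set (Pt (⊤ : SimpleGraph (Fin n))) → Fin n
  W : Set (Pt (⊤ : SimpleGraph (Fin n))) → Fin n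
  S : Set (Pt (⊤ : SimpleGraph (Fin n))) → ℝ
  ne : ∀ B ∈ F, U B ≠ W B
  S0 : ∀ B ∈ F, 0 ≤ S B
  S1 : ∀ B ∈ F, S B ≤ 1 / 2
  mem : ∀ B ∈ F, ∀ q : Pt (⊤ : SimpleGraph (Fin n)), q ∈ B ↔
    ((∀ w, w ≠ U B → w ≠ W B → q.x w = 0) ∧ 1 / 2 - S B ≤ q.x (U B)) ∨ 1 / 2 + S B ≤ q.x (U B)

theorem exists_fam {n c : ℕ} (hn : 2 ≤ n) (h : Colourable (⊤ : SimpleGraph (Fin n)) (1 / 2) c) :
    Nonempty (Fam n c) := by
  classical
  obtain ⟨F, f', h1, h2, h3'⟩ := h
  have hF : F.Nonempty := by
    have : pt (⟨0, by omega⟩ : Fin n) ⟨0, by omega⟩ 0 le_rfl zero_le_one ∈ ⋃₀ F := by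
      rw [h2]; trivial
    obtain ⟨B, hB, _⟩ := this
    exact ⟨B, hB⟩
  obtain ⟨B0, hB0⟩ := hF
  let f : Set (Pt (⊤ : SimpleGraph (Fin n))) → Fin c := fun B =>
    if h : B ∈ F then f' ⟨B, h⟩ else f' ⟨B0, hB0⟩
  have h3 : ∀ B ∈ F, ∀ B' ∈ F, B ≠ B' → (B ∩ B').Nonempty → f B ≠ f B' := by
    intro B hB B' hB' hne hint
    have e1 : f B = f' ⟨B, hB⟩ := dif_pos hB
    have e2 : f B' = f' ⟨B', hB'⟩ := dif_pos hB'
    rw [e1, e2]
    exact h3' ⟨B, hB⟩ ⟨B', hB'⟩ (fun e => hne (congrArg Subtype.val e)) hint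
  have hrep : ∀ B : Set (Pt (⊤ : SimpleGraph (Fin n))), ∃ t : Fin n × Fin n × ℝ, B ∈ F →
      t.1 ≠ t.2.1 ∧ 0 ≤ t.2.2 ∧ t.2.2 ≤ 1 / 2 ∧
      ∀ q : Pt (⊤ : SimpleGraph (Fin n)), q ∈ B ↔
        ((∀ w, w ≠ t.1 → w ≠ t.2.1 → q.x w = 0) ∧ 1 / 2 - t.2.2 ≤ q.x t.1) ∨
          1 / 2 + t.2.2 ≤ q.x t.1 := by
    intro B
    by_cases hB : B ∈ F
    · obtain ⟨p, rfl⟩ := h1 B hB
      obtain ⟨u, v, s, h0, h1', huv, hs, rfl⟩ := exists_rep hn p
      exact ⟨(u, v, s), fun _ => ⟨huv, h0, hs, fun q => mem_ball_pt huv h0 h1' hs q⟩⟩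
    · exact ⟨(⟨0, by omega⟩, ⟨0, by omega⟩, 0), fun h => absurd h hB⟩
  choose t ht using hrep
  exact ⟨{
    F := F, f := f
    cover := fun q => by
      have : q ∈ ⋃₀ F := by rw [h2]; trivial
      obtain ⟨B, hB, hq⟩ := this
      exact ⟨B, hB, hq⟩
    proper := fun B hB B' hB' q hf hq hq' => by
      by_contra hne
      exact h3 B hB B' hB' hne ⟨q, hq, hq'⟩ hf
    U := fun B => (t B).1
    W := fun B => (t B).2.1
    S := fun B => (t B).2.2
    ne := fun B hB => (ht B hB).1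
    S0 := fun B hB => (ht B hB).2.1
    S1 := fun B hB => (ht B hB).2.2.1
    mem := fun B hB => (ht B hB).2.2.2 }⟩

namespace Fam

variable {n c : ℕ} (Φ : Fam n c)

theorem vertex_mem {B : Set (Pt (⊤ : SimpleGraph (Fin n)))} (hB : B ∈ Φ.F) :
    pt (Φ.U B) (Φ.U B) 0 le_rfl zero_le_one ∈ B := by
  rw [Φ.mem B hB]
  right
  have := Φ.S1 B hB
  simp only [pt, if_true]
  linarith

theorem inj {B B' : Set (Pt (⊤ : SimpleGraph (Fin n)))} (hB : B ∈ Φ.F) (hB' : B' ∈ Φ.F)
    (hf : Φ.f B = Φ.f B') (hU : Φ.U B = Φ.U B') : B = B' := by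
  refine Φ.proper B hB B' hB' _ hf (Φ.vertex_mem hB) ?_
  rw [hU]
  exact Φ.vertex_mem hB'

theorem finite : Φ.F.Finite := by
  have h : Set.InjOn (fun B => (Φ.f B, Φ.U B)) Φ.F := by
    intro B hB B' hB' h
    obtain ⟨h1, h2⟩ := Prod.mk.inj h
    exact Φ.inj hB hB' h1 h2
  exact Set.Finite.of_injOn (t := Set.univ) (fun _ _ => Set.mem_univ _) h Set.finite_univ

/-- two different balls of the same colour: the second one is not near the direction of the first one
with a smaller parameter -/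
theorem key {B B' : Set (Pt (⊤ : SimpleGraph (Fin n)))} (hB : B ∈ Φ.F) (hB' : B' ∈ Φ.F)
    (hf : Φ.f B = Φ.f B') (h : Φ.U B' = Φ.W B) (hs : Φ.S B' ≤ Φ.S B) : False := by
  have hne := Φ.ne B hB
  have h0 := Φ.S0 B' hB'
  have h1 := Φ.S1 B' hB'
  set q := pt (Φ.U B) (Φ.W B) (1 / 2 + Φ.S B') (by linarith) (by linarith) with hq
  have hqu : q.x (Φ.U B) = 1 / 2 - Φ.S B' := by
    simp only [hq, pt, if_true, if_neg hne]; ring
  have hqv : q.x (Φ.W B) = 1 / 2 + Φ.S B' := by
    simp only [hq, pt, if_true, if_neg hne.symm]; ring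
  have a1 : q ∈ B := by
    rw [Φ.mem B hB]
    left
    refine ⟨fun w hw hw' => ?_, ?_⟩
    · simp [hq, pt, hw, hw']
    · rw [hqu]; linarith
  have a2 : q ∈ B' := by
    rw [Φ.mem B' hB', h]
    right
    rw [hqv]
  have := Φ.proper B hB B' hB' q hf a1 a2
  rw [this] at hne h
  exact hne h

open Classical in
/-- the balls of colour `i` -/
noncomputable def col (i : Fin c) : Finset (Set (Pt (⊤ : SimpleGraph (Fin n)))) :=
  Φ.finite.toFinset.filter fun B => Φ.f B = i

theorem mem_col {i : Fin c} {B : Set (Pt (⊤ : SimpleGraph (Fin n)))} :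
    B ∈ Φ.col i ↔ B ∈ Φ.F ∧ Φ.f B = i := by
  classical
  unfold col
  rw [Finset.mem_filter, Set.Finite.mem_toFinset]

theorem card_col (hn : 2 ≤ n) (i : Fin c) : (Φ.col i).card ≤ n - 1 := by
  classical
  have hinj : Set.InjOn Φ.U (Φ.col i : Set (Set (Pt (⊤ : SimpleGraph (Fin n))))) := by
    intro B hB B' hB' h
    rw [Finset.mem_coe, mem_col] at hB hB'
    exact Φ.inj hB.1 hB'.1 (hB.2.trans hB'.2.symm) h
  rw [← Finset.card_image_of_injOn hinj]
  by_contra hcon
  push Not at hcon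
  have hfull : (Φ.col i).image Φ.U = Finset.univ := by
    apply Finset.eq_univ_of_card
    have h1 := Finset.card_le_univ ((Φ.col i).image Φ.U)
    rw [Fintype.card_fin] at h1 ⊢
    omega
  have hsurj : ∀ u, ∃ B, B ∈ Φ.col i ∧ Φ.U B = u := by
    intro u
    have : u ∈ (Φ.col i).image Φ.U := by rw [hfull]; exact Finset.mem_univ _
    rw [Finset.mem_image] at this
    exact this
  choose g hg using hsurj
  have : Nonempty (Fin n) := ⟨⟨0, by omega⟩⟩
  obtain ⟨u, -, hu⟩ := Finset.exists_max_image Finset.univ (fun u => Φ.S (g u))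
    Finset.univ_nonempty
  have h1 := Φ.mem_col.1 (hg u).1
  have h2 := Φ.mem_col.1 (hg (Φ.W (g u))).1
  exact Φ.key h1.1 h2.1 (h1.2.trans h2.2.symm) (hg _).2 (hu _ (Finset.mem_univ _))

theorem card_F (hn : 2 ≤ n) : Φ.finite.toFinset.card ≤ c * (n - 1) := by
  classical
  have h : Φ.finite.toFinset = Finset.univ.biUnion Φ.col := by
    ext B
    rw [Finset.mem_biUnion, Set.Finite.mem_toFinset]
    constructor
    · intro hB
      exact ⟨Φ.f B, Finset.mem_univ _, Φ.mem_col.2 ⟨hB, rfl⟩⟩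
    · rintro ⟨i, _, hi⟩
      exact (Φ.mem_col.1 hi).1
  rw [h]
  refine le_trans Finset.card_biUnion_le ?_
  refine le_trans (Finset.sum_le_card_nsmul _ _ (n - 1) fun i _ => Φ.card_col hn i) ?_
  rw [Finset.card_univ, Fintype.card_fin, smul_eq_mul]

open Classical in
/-- the vertices which are centres of balls -/
noncomputable def K : Finset (Fin n) :=
  Finset.univ.filter fun u => ∃ B ∈ Φ.F, Φ.U B = u ∧ Φ.S B = 0

theorem mem_K {u : Fin n} : u ∈ Φ.K ↔ ∃ B ∈ Φ.F, Φ.U B = u ∧ Φ.S B = 0 := by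
  classical
  unfold K
  rw [Finset.mem_filter]
  exact ⟨fun h => h.2, fun h => ⟨Finset.mem_univ _, h⟩⟩

theorem vertexballs {B B' : Set (Pt (⊤ : SimpleGraph (Fin n)))} (hB : B ∈ Φ.F) (hB' : B' ∈ Φ.F)
    (hf : Φ.f B = Φ.f B') (h : Φ.S B = 0) (h' : Φ.S B' = 0) : B = B' := by
  by_cases hU : Φ.U B = Φ.U B'
  · exact Φ.inj hB hB' hf hU
  · have h5 : (1 : ℝ) / 2 ≤ 1 := by norm_num
    have h6 : (0 : ℝ) ≤ 1 / 2 := by norm_num
    refine Φ.proper B hB B' hB' (pt (Φ.U B) (Φ.U B') (1 / 2) h6 h5) hf ?_ ?_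
    · rw [Φ.mem B hB]
      right
      rw [h]
      simp only [pt, if_true, if_neg hU]
      norm_num
    · rw [Φ.mem B' hB']
      right
      rw [h']
      simp only [pt, if_true, if_neg (Ne.symm hU)]
      norm_num

/-- the balls centred at a vertex -/
noncomputable def vb : Finset (Set (Pt (⊤ : SimpleGraph (Fin n)))) := by
  classical
  exact Φ.finite.toFinset.filter fun B => Φ.S B = 0

/-- the other balls -/
noncomputable def eb : Finset (Set (Pt (⊤ : SimpleGraph (Fin n)))) := by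
  classical
  exact Φ.finite.toFinset.filter fun B => Φ.S B ≠ 0

theorem mem_vb {B : Set (Pt (⊤ : SimpleGraph (Fin n)))} : B ∈ Φ.vb ↔ B ∈ Φ.F ∧ Φ.S B = 0 := by
  classical
  unfold vb
  rw [Finset.mem_filter, Set.Finite.mem_toFinset]

theorem mem_eb {B : Set (Pt (⊤ : SimpleGraph (Fin n)))} : B ∈ Φ.eb ↔ B ∈ Φ.F ∧ Φ.S B ≠ 0 := by
  classical
  unfold eb
  rw [Finset.mem_filter, Set.Finite.mem_toFinset]

theorem card_vb_eb : Φ.vb.card + Φ.eb.card = Φ.finite.toFinset.card := by
  classical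
  unfold vb eb
  exact Finset.card_filter_add_card_filter_not _

theorem card_K_le_vb : Φ.K.card ≤ Φ.vb.card := by
  classical
  have h : Φ.K ⊆ Φ.vb.image Φ.U := by
    intro u hu
    obtain ⟨B, hB, h1, h2⟩ := Φ.mem_K.1 hu
    rw [Finset.mem_image]
    exact ⟨B, Φ.mem_vb.2 ⟨hB, h2⟩, h1⟩
  exact (Finset.card_le_card h).trans Finset.card_image_le

theorem card_vb : Φ.vb.card ≤ c := by
  classical
  have h : Set.InjOn Φ.f (Φ.vb : Set (Set (Pt (⊤ : SimpleGraph (Fin n))))) := by
    intro B hB B' hB' hf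
    rw [Finset.mem_coe, mem_vb] at hB hB'
    exact Φ.vertexballs hB.1 hB'.1 hf hB.2 hB'.2
  rw [← Finset.card_image_of_injOn h]
  refine (Finset.card_le_univ _).trans ?_
  rw [Fintype.card_fin]

theorem exists_eps : ∃ ε : ℝ, 0 < ε ∧ ε < 1 / 2 ∧ ∀ B ∈ Φ.F, 0 < Φ.S B → ε < Φ.S B := by
  classical
  have h : ∀ A : Finset (Set (Pt (⊤ : SimpleGraph (Fin n)))),
      ∃ ε : ℝ, 0 < ε ∧ ε < 1 / 2 ∧ ∀ B ∈ A, 0 < Φ.S B → ε < Φ.S B := by
    intro A
    induction A using Finset.induction_on with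
    | empty => exact ⟨1 / 4, by norm_num, by norm_num, by simp⟩
    | insert B A _ ih =>
      obtain ⟨ε, h1, h2, h3⟩ := ih
      by_cases hB : 0 < Φ.S B
      · refine ⟨min ε (Φ.S B / 2), lt_min h1 (by linarith), lt_of_le_of_lt (min_le_left _ _) h2,
          ?_⟩
        intro B' hB' h
        rcases Finset.mem_insert.1 hB' with rfl | hB'
        · exact lt_of_le_of_lt (min_le_right _ _) (by linarith)
        · exact lt_of_le_of_lt (min_le_left _ _) (h3 B' hB' h)
      · refine ⟨ε, h1, h2, ?_⟩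
        intro B' hB' h
        rcases Finset.mem_insert.1 hB' with rfl | hB'
        · exact absurd h hB
        · exact h3 B' hB' h
  obtain ⟨ε, h1, h2, h3⟩ := h Φ.finite.toFinset
  exact ⟨ε, h1, h2, fun B hB => h3 B ((Set.Finite.mem_toFinset _).2 hB)⟩

theorem edge_ball {u v : Fin n} (huv : u ≠ v) (hv : v ∉ Φ.K) :
    ∃ B ∈ Φ.eb, (Φ.U B = u ∧ Φ.W B = v) ∨ (Φ.U B = v ∧ Φ.W B = u) := by
  obtain ⟨ε, e1, e2, e3⟩ := Φ.exists_eps
  set q := pt u v (1 / 2 + ε) (by linarith) (by linarith) with hq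
  have hqu : q.x u = 1 / 2 - ε := by
    simp only [hq, pt, if_true, if_neg huv]; ring
  have hqv : q.x v = 1 / 2 + ε := by
    simp only [hq, pt, if_true, if_neg huv.symm]; ring
  have hqw : ∀ w, w ≠ u → w ≠ v → q.x w = 0 := by
    intro w hw hw'; simp [hq, pt, hw, hw']
  obtain ⟨B, hB, hqB⟩ := Φ.cover q
  have hS0 := Φ.S0 B hB
  have hUv : 1 / 2 ≤ q.x (Φ.U B) → Φ.U B = v := by
    intro h
    by_contra h1
    by_cases h2 : Φ.U B = u
    · rw [h2, hqu] at h; linarith
    · rw [hqw _ h2 h1] at h; linarith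
  have hne0 : Φ.U B = v → Φ.S B ≠ 0 := fun h h' => hv (Φ.mem_K.2 ⟨B, hB, h, h'⟩)
  rw [Φ.mem B hB] at hqB
  rcases hqB with ⟨h1, h2⟩ | h1
  · have hu' : u = Φ.U B ∨ u = Φ.W B := by
      by_contra h
      rw [not_or] at h
      have := h1 u h.1 h.2
      rw [hqu] at this; linarith
    have hv' : v = Φ.U B ∨ v = Φ.W B := by
      by_contra h
      rw [not_or] at h
      have := h1 v h.1 h.2
      rw [hqv] at this; linarith
    have hS : Φ.S B ≠ 0 := by
      intro h
      rw [h] at h2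
      exact hne0 (hUv (by linarith)) h
    refine ⟨B, Φ.mem_eb.2 ⟨hB, hS⟩, ?_⟩
    rcases hu' with h3 | h3 <;> rcases hv' with h4 | h4
    · exact absurd (h3.trans h4.symm) huv
    · exact Or.inl ⟨h3.symm, h4.symm⟩
    · exact Or.inr ⟨h4.symm, h3.symm⟩
    · exact absurd (h3.trans h4.symm) huv
  · exfalso
    have h3 := hUv (by linarith)
    rw [h3, hqv] at h1
    rcases hS0.eq_or_lt with h4 | h4
    · exact hne0 h3 h4.symm
    · have := e3 B hB h4
      linarith

theorem card_eb : n * n - n - (Φ.K.card * Φ.K.card - Φ.K.card) ≤ 2 * Φ.eb.card := by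
  classical
  have h1 : (Finset.univ : Finset (Fin n)).offDiag.card = n * n - n := by
    rw [Finset.offDiag_card, Finset.card_univ, Fintype.card_fin]
  have h2 : Φ.K.offDiag.card = Φ.K.card * Φ.K.card - Φ.K.card := Finset.offDiag_card _
  have h3 : Φ.K.offDiag ⊆ (Finset.univ : Finset (Fin n)).offDiag :=
    Finset.offDiag_mono (Finset.subset_univ _)
  rw [← h1, ← h2, ← Finset.card_sdiff_of_subset h3]
  have hex : ∀ e : Fin n × Fin n, ∃ t : Set (Pt (⊤ : SimpleGraph (Fin n))) × Bool,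
      e ∈ (Finset.univ : Finset (Fin n)).offDiag \ Φ.K.offDiag →
      t.1 ∈ Φ.eb ∧ e = if t.2 then (Φ.U t.1, Φ.W t.1) else (Φ.W t.1, Φ.U t.1) := by
    rintro ⟨u, v⟩
    by_cases he : (u, v) ∈ (Finset.univ : Finset (Fin n)).offDiag \ Φ.K.offDiag
    · have he' := he
      rw [Finset.mem_sdiff, Finset.mem_offDiag, Finset.mem_offDiag] at he'
      obtain ⟨⟨_, _, huv⟩, h⟩ := he'
      have h4 : u ∉ Φ.K ∨ v ∉ Φ.K := by
        by_contra hc
        rw [not_or, not_not, not_not] at hc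
        exact h ⟨hc.1, hc.2, huv⟩
      rcases h4 with h4 | h4
      · obtain ⟨B, hB, h5 | h5⟩ := Φ.edge_ball (Ne.symm huv) h4
        · exact ⟨(B, false), fun _ => ⟨hB, by simp [h5.1, h5.2]⟩⟩
        · exact ⟨(B, true), fun _ => ⟨hB, by simp [h5.1, h5.2]⟩⟩
      · obtain ⟨B, hB, h5 | h5⟩ := Φ.edge_ball huv h4
        · exact ⟨(B, true), fun _ => ⟨hB, by simp [h5.1, h5.2]⟩⟩
        · exact ⟨(B, false), fun _ => ⟨hB, by simp [h5.1, h5.2]⟩⟩
    · exact ⟨(∅, false), fun h => absurd h he⟩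
  choose t ht using hex
  have h5 := Finset.card_le_card_of_injOn (s := (Finset.univ : Finset (Fin n)).offDiag \ Φ.K.offDiag)
    (t := Φ.eb ×ˢ (Finset.univ : Finset Bool)) t
    (fun e he => Finset.mem_product.2 ⟨(ht e he).1, Finset.mem_univ _⟩)
    (by
      intro e he e' he' h
      have a := (ht e he).2
      have b := (ht e' he').2
      rw [h] at a
      exact a.trans b.symm)
  rw [Finset.card_product, Finset.card_univ, Fintype.card_bool, mul_comm] at h5
  exact h5

end Fam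

theorem lower {n c : ℕ} (hn : 2 ≤ n) (h : Colourable (⊤ : SimpleGraph (Fin n)) (1 / 2) c) :
    n ≤ 2 * c ∨ n * (n - 1) + 5 * c ≤ c ^ 2 + 2 * n * c := by
  obtain ⟨Φ⟩ := exists_fam hn h
  have h1 := Φ.card_F hn
  have h2 := Φ.card_vb_eb
  have h3 := Φ.card_K_le_vb
  have h4 := Φ.card_vb
  have h5 := Φ.card_eb
  generalize Φ.K.card = k at h3 h5
  generalize Φ.vb.card = v at h2 h3 h4
  generalize Φ.eb.card = e at h2 h5
  generalize Φ.finite.toFinset.card = g at h1 h2
  clear Φ
  obtain ⟨m, rfl⟩ : ∃ m, n = m + 1 := ⟨n - 1, by omega⟩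
  rw [Nat.add_sub_cancel] at h1 ⊢
  have h6 : (m + 1) * (m + 1) - (m + 1) = (m + 1) * m := by
    have : (m + 1) * (m + 1) = (m + 1) * m + (m + 1) := by ring
    omega
  rw [h6] at h5
  have h7 : (m + 1) * m + k ≤ 2 * e + k * k := by
    rcases Nat.le_total k (k * k) with h | h
    · omega
    · have : k ≤ 1 := by nlinarith
      interval_cases k <;> omega
  have h8 : v + e ≤ c * m := by omega
  by_cases hk : k ≤ 3
  · left
    have h9 : (m + 1) * m ≤ 2 * (c * m) := by
      interval_cases k <;> omega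
    have h10 : (m + 1) * m ≤ 2 * c * m := by nlinarith
    have hm : 0 < m := by omega
    exact Nat.le_of_mul_le_mul_right h10 hm
  · right
    push Not at hk
    have hkc : k ≤ c := h3.trans h4
    have h9 : k * k + 3 * c ≤ c * c + 3 * k := by
      obtain ⟨d, rfl⟩ := Nat.exists_eq_add_of_le hkc
      nlinarith
    nlinarith

/-! ### Schemes -/

/-- A combinatorial description of a family of balls: `R i u t s` means that the ball of colour `i`
near the vertex `u` has its centre at distance `s / (2 T)` from `u` on the edge `u t`. -/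
structure Scheme (n c T : ℕ) (R : ℕ → ℕ → ℕ → ℕ → Prop) : Prop where
  pos : 0 < T
  bound : ∀ i u t s, R i u t s → i < c ∧ u < n ∧ t < n ∧ t ≠ u ∧ s ≤ T
  uniq : ∀ i u t s t' s', R i u t s → R i u t' s' → t = t' ∧ s = s'
  one : ∀ i u t u' t', R i u t 0 → R i u' t' 0 → u = u'
  lt : ∀ i u t s t' s', R i u t s → R i t t' s' → s = 0 ∨ s < s'
  top : ∀ i u t u', R i u t T → R i u' t T → u = u'
  cover : ∀ u w, u < n → w < n → u ≠ w →
    (∃ i s, R i u w s ∧ (s = T ∨ ∃ j t' s', R j w t' s' ∧ s' ≤ s)) ∨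
    (∃ i s, R i w u s ∧ (s = T ∨ ∃ j t' s', R j u t' s' ∧ s' ≤ s)) ∨
    ((∃ i t, R i u t 0) ∧ (∃ j t, R j w t 0))

theorem Scheme.colourable {n c T : ℕ} {R : ℕ → ℕ → ℕ → ℕ → Prop} (hR : Scheme n c T R)
    (hn : 2 ≤ n) (hc : 0 < c) : Colourable (⊤ : SimpleGraph (Fin n)) (1 / 2) c := by
  classical
  have hT : (0 : ℝ) < T := by exact_mod_cast hR.pos
  -- the parameter
  have hpar : ∀ s : ℕ, s ≤ T → (0 : ℝ) ≤ s / (2 * T) ∧ (s : ℝ) / (2 * T) ≤ 1 / 2 := by
    intro s hs
    have hs' : (s : ℝ) ≤ T := by exact_mod_cast hs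
    refine ⟨by positivity, ?_⟩
    rw [div_le_iff₀ (by positivity)]
    linarith
  have hlt : ∀ s s' : ℕ, (s : ℝ) / (2 * T) ≤ s' / (2 * T) ↔ s ≤ s' := by
    intro s s'
    rw [div_le_div_iff_of_pos_right (by positivity)]
    exact_mod_cast Iff.rfl
  -- membership in a ball, as a set
  let D : Fin n → Fin n → ℝ → Set (Pt (⊤ : SimpleGraph (Fin n))) := fun u v s =>
    {q | ((∀ w, w ≠ u → w ≠ v → q.x w = 0) ∧ 1 / 2 - s ≤ q.x u) ∨ 1 / 2 + s ≤ q.x u}
  have hD : ∀ u v : Fin n, u ≠ v → ∀ s : ℝ, 0 ≤ s → s ≤ 1 / 2 → ∃ p, D u v s = ball p (1 / 2) := by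
    intro u v huv s h0 h1
    refine ⟨pt u v s h0 (by linarith), ?_⟩
    ext q
    rw [mem_ball_pt huv h0 _ h1]
    rfl
  let Ball : Fin c → Set (Pt (⊤ : SimpleGraph (Fin n))) → Prop := fun i B =>
    ∃ (u t : Fin n) (s : ℕ), R i u t s ∧ B = D u t (s / (2 * T))
  let F : Set (Set (Pt (⊤ : SimpleGraph (Fin n)))) := {B | ∃ i, Ball i B}
  let f : Set (Pt (⊤ : SimpleGraph (Fin n))) → Fin c := fun B =>
    if h : ∃ i, Ball i B then h.choose else ⟨0, hc⟩
  have hf : ∀ B ∈ F, Ball (f B) B := by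
    intro B hB
    have hB' : ∃ i, Ball i B := hB
    have : f B = hB'.choose := dif_pos hB'
    rw [this]
    exact hB'.choose_spec
  have hmk : ∀ i u t s, R i u t s → ∃ (i' : Fin c) (u' t' : Fin n), i'.1 = i ∧ u'.1 = u ∧ t'.1 = t := by
    intro i u t s h
    obtain ⟨h1, h2, h3, _, _⟩ := hR.bound i u t s h
    exact ⟨⟨i, h1⟩, ⟨u, h2⟩, ⟨t, h3⟩, rfl, rfl, rfl⟩
  refine ⟨F, fun B => f B.1, ?_, ?_, ?_⟩
  · rintro B ⟨i, u, t, s, h, rfl⟩
    obtain ⟨_, _, _, h4, h5⟩ := hR.bound _ _ _ _ h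
    exact hD u t (fun e => h4 (congrArg Fin.val e).symm) _ (hpar s h5).1 (hpar s h5).2
  · rw [Set.eq_univ_iff_forall]
    intro q
    obtain ⟨u, w, r, h0, h1, huw, hr, rfl⟩ := exists_rep hn q
    have cov : ∀ u w : Fin n, u ≠ w → ∀ q : Pt (⊤ : SimpleGraph (Fin n)),
        (∀ z, z ≠ u → z ≠ w → q.x z = 0) →
        (∃ i s, R i u w s ∧ (s = T ∨ ∃ j t' s', R j w t' s' ∧ s' ≤ s)) → q ∈ ⋃₀ F := by
      rintro u w huw q hq ⟨i, s, h2, h3⟩
      obtain ⟨i, rfl⟩ : ∃ i' : Fin c, i'.1 = i := ⟨⟨i, (hR.bound _ _ _ _ h2).1⟩, rfl⟩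
      have hs := (hR.bound _ _ _ _ h2).2.2.2.2
      by_cases h4 : 1 / 2 - (s : ℝ) / (2 * T) ≤ q.x u
      · exact ⟨_, ⟨i, u, w, s, h2, rfl⟩, Or.inl ⟨hq, h4⟩⟩
      · push Not at h4
        have hsum := sum_two q huw hq
        rcases h3 with rfl | ⟨j, t', s', h5, h6⟩
        · exfalso
          have : (s : ℝ) / (2 * s) = 1 / 2 := by field_simp
          rw [this] at h4
          have := q.nonneg u
          linarith
        · obtain ⟨j, rfl⟩ : ∃ i' : Fin c, i'.1 = j := ⟨⟨j, (hR.bound _ _ _ _ h5).1⟩, rfl⟩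
          obtain ⟨t', rfl⟩ : ∃ i' : Fin n, i'.1 = t' := ⟨⟨t', (hR.bound _ _ _ _ h5).2.2.1⟩, rfl⟩
          refine ⟨_, ⟨j, w, t', s', h5, rfl⟩, Or.inr ?_⟩
          have := (hlt s' s).2 h6
          linarith
    set q := pt u w r h0 h1 with hq
    have hqz : ∀ z, z ≠ u → z ≠ w → q.x z = 0 := by
      intro z hz hz'; simp [hq, pt, hz, hz']
    rcases hR.cover u w u.2 w.2 (fun e => huw (Fin.ext e)) with h | h | ⟨⟨i, t, h2⟩, ⟨j, t', h3⟩⟩
    · exact cov u w huw q hqz h
    · exact cov w u huw.symm q (fun z hz hz' => hqz z hz' hz) h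
    · obtain ⟨i, rfl⟩ : ∃ i' : Fin c, i'.1 = i := ⟨⟨i, (hR.bound _ _ _ _ h2).1⟩, rfl⟩
      obtain ⟨t, rfl⟩ : ∃ i' : Fin n, i'.1 = t := ⟨⟨t, (hR.bound _ _ _ _ h2).2.2.1⟩, rfl⟩
      refine ⟨_, ⟨i, u, t, 0, h2, rfl⟩, Or.inr ?_⟩
      simp only [hq, pt, if_true, if_neg huw]
      push_cast
      rw [zero_div]
      linarith
  · rintro ⟨B, hB⟩ ⟨B', hB'⟩ hne' ⟨q, hq, hq'⟩ heq
    have hne : B ≠ B' := fun e => hne' (Subtype.ext e)
    dsimp only at hq hq' heq
    obtain ⟨u, t, s, h1, h2⟩ := hf B hB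
    obtain ⟨u', t', s', h1', h2'⟩ := hf B' hB'
    rw [← heq] at h1'
    rw [h2] at hq
    rw [h2'] at hq'
    generalize f B = i at h1 h1'
    obtain ⟨_, _, _, b4, b5⟩ := hR.bound _ _ _ _ h1
    obtain ⟨_, _, _, b4', b5'⟩ := hR.bound _ _ _ _ h1'
    have p1 := hpar s b5
    have p1' := hpar s' b5'
    by_cases huu : u = u'
    · subst huu
      obtain ⟨h3, h4⟩ := hR.uniq _ _ _ _ _ _ h1 h1'
      have h3' : t = t' := Fin.ext h3
      apply hne
      rw [h2, h2', h3', h4]
    · have hut : t ≠ u := fun e => b4 (congrArg Fin.val e)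
      have hut' : t' ≠ u' := fun e => b4' (congrArg Fin.val e)
      have e0 : ∀ s : ℕ, (s : ℝ) / (2 * T) ≤ 0 → s = 0 := by
        intro s hs
        have : (s : ℝ) / (2 * T) ≤ (0 : ℕ) / (2 * T) := by push_cast; rw [zero_div]; exact hs
        have := (hlt s 0).1 this
        omega
      have e1 : ∀ s : ℕ, (1 : ℝ) / 2 ≤ (s : ℝ) / (2 * T) → T ≤ s := by
        intro s hs
        have : (T : ℝ) / (2 * T) ≤ (s : ℝ) / (2 * T) := by
          have : (T : ℝ) / (2 * T) = 1 / 2 := by field_simp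
          rw [this]; exact hs
        exact (hlt T s).1 this
      -- both are vertex balls
      have c1 : s = 0 → s' = 0 → False := by
        rintro rfl rfl
        exact huu (Fin.ext (hR.one _ _ _ _ _ h1 h1'))
      -- the second one is centred at the target of the first one
      have c2 : t = u' → s' ≤ s → False := by
        rintro rfl h
        rcases hR.lt _ _ _ _ _ _ h1 h1' with h3 | h3
        · exact c1 h3 (by omega)
        · omega
      have c2' : t' = u → s ≤ s' → False := by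
        rintro rfl h
        rcases hR.lt _ _ _ _ _ _ h1' h1 with h3 | h3
        · exact c1 (by omega) h3
        · omega
      have hnn := q.nonneg
      have hle := add_le_one q huu
      rcases hq with ⟨g1, g2⟩ | g1 <;> rcases hq' with ⟨g1', g2'⟩ | g1'
      · by_cases k1 : t = u'
        · by_cases k2 : t' = u
          · rcases le_total s s' with h | h
            · exact c2' k2 h
            · exact c2 k1 h
          · -- the point is the vertex `t = u'`
            have hz : q.x u = 0 := g1' u huu (Ne.symm k2)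
            rw [hz] at g2
            have := e1 s (by linarith)
            exact c2 k1 (by omega)
        · have hz' : q.x u' = 0 := g1 u' (Ne.symm huu) (Ne.symm k1)
          rw [hz'] at g2'
          have f1 := e1 s' (by linarith)
          have f2 : s' = T := by omega
          by_cases k2 : t' = u
          · exact c2' k2 (by omega)
          · have hz : q.x u = 0 := g1' u huu (Ne.symm k2)
            rw [hz] at g2
            have f3 := e1 s (by linarith)
            have f4 : s = T := by omega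
            by_cases k3 : t = t'
            · subst k3
              rw [f4] at h1
              rw [f2] at h1'
              exact huu (Fin.ext (hR.top _ _ _ _ h1 h1'))
            · have hz2 : q.x t = 0 := g1' t k1 k3
              have := sum_two q (Ne.symm hut) g1
              linarith
      · by_cases k1 : u' = t
        · have hs := sum_two q (Ne.symm hut) g1
          rw [k1] at g1'
          exact c2 k1.symm ((hlt s' s).1 (by linarith))
        · rw [g1 u' (Ne.symm huu) k1] at g1'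
          linarith [p1'.1]
      · by_cases k1 : u = t'
        · have hs := sum_two q (Ne.symm hut') g1'
          rw [k1] at g1
          exact c2' k1.symm ((hlt s s').1 (by linarith))
        · rw [g1' u huu k1] at g1
          linarith [p1.1]
      · exact c1 (e0 s (by linarith [p1'.1])) (e0 s' (by linarith [p1.1]))

/-- the scheme for `n ≤ 2 c` -/
def R1 (n i u t s : ℕ) : Prop :=
  u < n ∧ 2 * i < n ∧ ((u = 2 * i ∧ t = 2 * i + 1 ∧ t < n ∧ s = 2) ∨
    (2 * i + 1 < u ∧ t = 2 * i + u % 2 ∧ s = 1) ∨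
    (u < 2 * i ∧ t = min (2 * i + 1 - u % 2) (n - 1) ∧ s = 1))

theorem scheme1 {n c : ℕ} (hn : 2 ≤ n) (hc : n ≤ 2 * c) : Scheme n c 2 (R1 n) := by
  refine ⟨by norm_num, ?_, ?_, ?_, ?_, ?_, ?_⟩
  · intro i u t s h
    unfold R1 at h
    omega
  · intro i u t s t' s' h h'
    unfold R1 at h h'
    omega
  · intro i u t u' t' h h'
    unfold R1 at h h'
    omega
  · intro i u t s t' s' h h'
    unfold R1 at h h'
    omega
  · intro i u t u' h h'
    unfold R1 at h h'
    omega
  · have main : ∀ u w, u < n → w < n → u / 2 < w / 2 →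
      (∃ i s, R1 n i u w s ∧ (s = 2 ∨ ∃ j t' s', R1 n j w t' s' ∧ s' ≤ s)) ∨
      (∃ i s, R1 n i w u s ∧ (s = 2 ∨ ∃ j t' s', R1 n j u t' s' ∧ s' ≤ s)) := by
      intro u w hu hw huw
      by_cases hpar : u % 2 = w % 2
      · right
        refine ⟨u / 2, 1, ?_, Or.inr ⟨w / 2, min (2 * (w / 2) + 1 - u % 2) (n - 1), 1, ?_, le_rfl⟩⟩
        · unfold R1
          omega
        · unfold R1
          omega
      · left
        refine ⟨w / 2, 1, ?_, Or.inr ⟨u / 2, 2 * (u / 2) + w % 2, 1, ?_, le_rfl⟩⟩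
        · unfold R1
          omega
        · unfold R1
          omega
    intro u w hu hw huw
    rcases lt_trichotomy (u / 2) (w / 2) with h | h | h
    · rcases main u w hu hw h with h | h
      · exact Or.inl h
      · exact Or.inr (Or.inl h)
    · rcases lt_or_gt_of_ne huw with h' | h'
      · left
        refine ⟨u / 2, 2, ?_, Or.inl rfl⟩
        unfold R1
        omega
      · right; left
        refine ⟨w / 2, 2, ?_, Or.inl rfl⟩
        unfold R1
        omega
    · rcases main w u hw hu h with h | h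
      · exact Or.inr (Or.inl h)
      · exact Or.inl h


/-- The data of the construction for `n > 2 c`: there are `c` vertices `0, …, c - 1` which are
centres of balls, and `M` or `M + 1` other ones. -/
structure Data where
  c : ℕ
  M : ℕ
  q : ℕ
  L : ℕ
  h : ℕ
  p : ℕ → ℕ
  l : ℕ → ℕ
  hc : 5 ≤ c
  hcM : c ≤ M
  hM : M = 2 * h + 1
  hq : q ≤ L
  hL : L + 2 = c
  p0 : p 0 = 0
  p1 : ∀ i, p (i + c) = p i + M
  p2 : ∀ a b, p a + b ≤ p (a + b)
  p3 : ∀ a, p (a + 1) ≤ p a + 2
  p4 : ∀ a, p (a + q) ≤ p a + L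
  hl : ∀ z, z < M → l z < c ∧ p (l z) ≤ z ∧ z < p (l z + 1)

namespace Data

variable (D : Data)

def lam (i z : ℕ) : ℕ := if D.p i ≤ z then D.l z else D.l z + D.c
def po (i z : ℕ) : ℕ := (if D.p i ≤ z then z else z + D.M) - D.p i
def k (i z : ℕ) : ℕ := D.lam i z - i
def lev (i z : ℕ) : ℕ := if D.k i z = 0 then 1 else 3 + D.po i z

theorem mono {a b : ℕ} (h : a ≤ b) : D.p a + (b - a) ≤ D.p b := by
  have := D.p2 a (b - a)
  rwa [Nat.add_sub_cancel' h] at this

theorem p_c : D.p D.c = D.M := by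
  have := D.p1 0
  rw [Nat.zero_add, D.p0] at this
  omega

theorem k_po {i z : ℕ} (hi : i < D.c) (hz : z < D.M) :
    D.p i ≤ D.M ∧ D.po i z < D.M ∧ i + D.k i z = D.lam i z ∧ D.k i z < D.c ∧ D.k i z ≤ D.po i z ∧
    D.p i + D.po i z < D.p (i + D.k i z + 1) ∧
    (D.k i z < D.q → D.po i z + D.q ≤ D.L + D.k i z) ∧ (D.k i z = 0 → D.po i z ≤ 1) ∧
    (D.k i z = 0 ↔ i = D.l z) := by
  obtain ⟨h1, h2, h3⟩ := D.hl z hz
  have h4 := D.mono hi.le
  rw [D.p_c] at h4
  have h5 := D.p1 (D.l z)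
  have h6 := D.p1 (D.l z + 1)
  have h7 : D.p (D.l z + D.c + 1) = D.p (D.l z + 1) + D.M := by
    rw [← h6]; congr 1; omega
  have h8 := D.p3 i
  have hc := D.hc
  have key : i ≤ D.lam i z ∧ D.lam i z < i + D.c ∧ D.p (D.lam i z) ≤ D.p i + D.po i z ∧
      D.p i + D.po i z < D.p (D.lam i z + 1) ∧ (D.lam i z = i ↔ i = D.l z) := by
    unfold lam po
    split_ifs with h
    · have a1 : i ≤ D.l z := by
        by_contra hcon
        push Not at hcon
        have := D.mono (a := D.l z + 1) (b := i) (by omega)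
        omega
      refine ⟨a1, by omega, by omega, by omega, by omega⟩
    · have a1 : D.l z < i := by
        by_contra hcon
        push Not at hcon
        have := D.mono hcon
        omega
      refine ⟨by omega, by omega, ?_, ?_, by omega⟩
      · rw [h5]; omega
      · rw [h7]; omega
  obtain ⟨k1, k2, k3, k4, k5⟩ := key
  have hk : i + D.k i z = D.lam i z := by unfold k; omega
  have hpo : D.po i z < D.M := by unfold po; split_ifs <;> omega
  have h9 := D.p2 i (D.k i z)
  rw [hk] at h9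
  refine ⟨by omega, hpo, hk, by omega, by omega, by rw [hk]; exact k4, ?_, ?_, ?_⟩
  · intro hkq
    have h10 := D.p4 i
    have h11 := D.mono (a := D.lam i z + 1) (b := i + D.q) (by omega)
    omega
  · intro h0
    rw [h0, Nat.add_zero] at hk
    rw [← hk] at k4
    omega
  · rw [← k5]
    omega

theorem exists_k {z κ : ℕ} (hz : z < D.M) (hκ : κ < D.c) : ∃ i, i < D.c ∧ D.k i z = κ ∧
    (i = D.l z - κ ∧ κ ≤ D.l z ∨ i + κ = D.l z + D.c ∧ D.l z < κ) := by
  obtain ⟨h1, h2, h3⟩ := D.hl z hz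
  by_cases h : κ ≤ D.l z
  · refine ⟨D.l z - κ, by omega, ?_, Or.inl ⟨rfl, h⟩⟩
    have h4 := D.mono (a := D.l z - κ) (b := D.l z) (by omega)
    unfold k lam
    rw [if_pos (by omega)]
    omega
  · refine ⟨D.l z + D.c - κ, by omega, ?_, Or.inr ⟨by omega, by omega⟩⟩
    have h4 := D.mono (a := D.l z + 1) (b := D.l z + D.c - κ) (by omega)
    unfold k lam
    rw [if_neg (by omega)]
    omega

/-- a step forward -/
theorem po_step {i z z' d : ℕ} (hi : i < D.c) (hz : z < D.M) (hd : D.po i z + d < D.M)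
    (h : z' = z + d ∧ z + d < D.M ∨ z' + D.M = z + d ∧ D.M ≤ z + d) :
    z' < D.M ∧ D.po i z' = D.po i z + d := by
  have h4 := (D.k_po hi hz).1
  unfold po at hd ⊢
  split_ifs at hd ⊢ <;> omega

theorem po_inj {i z z' : ℕ} (hi : i < D.c) (hz : z < D.M) (hz' : z' < D.M)
    (h : D.po i z = D.po i z') : z = z' := by
  have h4 := (D.k_po hi hz).1
  unfold po at h
  split_ifs at h <;> omega

theorem leaf_k {i u b : ℕ} (hi : i < D.c) (h2 : u < D.c) (h1 : b < D.M) (h4 : D.k u b < D.q)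
    (h5 : i = u + 1 + D.po u b ∨ i + D.c = u + 1 + D.po u b) : D.k i b ≠ 0 := by
  intro e
  have hL := D.hL
  have e1 := D.k_po h2 h1
  have e3 := (D.k_po hi h1).2.2.2.2.2.2.2.2.1 e
  have e6 : D.lam u b < u + 1 + D.po u b := by omega
  have e5 : D.lam u b = D.l b ∨ D.lam u b = D.l b + D.c := by
    unfold lam
    split_ifs
    · exact Or.inl rfl
    · exact Or.inr rfl
  omega

variable (ev : Prop) (dd : ℕ → ℕ → ℕ)

/-- the construction -/
def R (i u t s : ℕ) : Prop :=
  i < D.c ∧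
  ((u = (if i + 1 = D.c then 0 else i + 1) ∧ t = i ∧ s = 0) ∨
   (∃ b, b < D.M ∧ u < D.c ∧ t = D.c + b ∧ D.k u b < D.q ∧
      (i = u + 1 + D.po u b ∨ i + D.c = u + 1 + D.po u b) ∧ s = 2) ∨
   (∃ z, z < D.M ∧ u = D.c + z ∧
      ((D.q ≤ D.k i z ∧ t = i) ∨ (D.k i z < D.q ∧ dd i z = 0 ∧ t = D.c + D.M) ∨
        (D.k i z < D.q ∧ 0 < dd i z ∧ ∃ z', t = D.c + z' ∧
          (z' = z + dd i z ∧ z + dd i z < D.M ∨ z' + D.M = z + dd i z ∧ D.M ≤ z + dd i z))) ∧
      s = D.lev i z) ∨
   (ev ∧ u = D.c + D.M ∧ t = i ∧ s = if i = 0 then 1 else D.M + 5))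

variable {ev dd}

theorem scheme2 {n : ℕ} (hn : D.c + D.M ≤ n) (hn' : n ≤ D.c + D.M + 1)
    (hev : ev ↔ D.c + D.M < n)
    (hd1 : ∀ i z, i < D.c → z < D.M → D.k i z < D.q → dd i z ≤ D.h)
    (hd2 : ∀ i z, i < D.c → z < D.M → D.k i z < D.q → 0 < dd i z →
      2 ≤ D.po i z + dd i z ∧ D.po i z + dd i z ≤ D.L)
    (hd3 : ∀ z d, z < D.M → 1 ≤ d → d ≤ D.h → ∃ i, i < D.c ∧ D.k i z < D.q ∧ dd i z = d)
    (hd4 : ∀ i z, i < D.c → z < D.M → D.k i z < D.q → dd i z = 0 → ev ∧ i ≠ 0)
    (hd5 : ev → ∀ z, z < D.M → ∃ i, i < D.c ∧ D.k i z < D.q ∧ dd i z = 0) :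
    Scheme n D.c (D.M + 10) (D.R ev dd) := by
  have hc := D.hc
  have hcM := D.hcM
  have hM := D.hM
  have hq := D.hq
  have hL := D.hL
  have lev_le : ∀ i z, i < D.c → z < D.M → 1 ≤ D.lev i z ∧ D.lev i z ≤ D.M + 3 ∧
      D.lev i z ≤ 3 + D.po i z ∧ (D.k i z ≠ 0 → D.lev i z = 3 + D.po i z) ∧
      (D.k i z = 0 → D.lev i z = 1) := by
    intro i z hi hz
    have h1 := D.k_po hi hz
    unfold lev
    split_ifs <;> omega
  refine ⟨by omega, ?_, ?_, ?_, ?_, ?_, ?_⟩
  · -- bound
    rintro i u t s ⟨hi, ⟨h1, h2, h3⟩ | ⟨b, h1, h2, h3, h4, h5, h6⟩ | ⟨z, h1, h2, h3, h4⟩ |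
      ⟨h1, h2, h3, h4⟩⟩
    · split_ifs at h1 <;> omega
    · omega
    · have h5 := lev_le i z hi h1
      have h6 := hd4 i z hi h1
      have h7 := hd1 i z hi h1
      rcases h3 with h3 | h3 | ⟨h3, h8, z', h9, h10⟩
      · omega
      · have := h6 h3.1 h3.2.1
        rw [hev] at this
        omega
      · omega
    · rw [hev] at h1
      split_ifs at h4 <;> omega
  · -- uniq
    rintro i u t s t' s' ⟨hi, h⟩ ⟨-, h'⟩
    rcases h with ⟨h1, h2, h3⟩ | ⟨b, h1, h2, h3, h4, h5, h6⟩ | ⟨z, h1, h2, h3, h4⟩ |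
      ⟨h1, h2, h3, h4⟩ <;>
    rcases h' with ⟨h1', h2', h3'⟩ | ⟨b', h1', h2', h3', h4', h5', h6'⟩ | ⟨z', h1', h2', h3', h4'⟩ |
      ⟨h1', h2', h3', h4'⟩
    · omega
    · have := D.k_po h2' h1'
      split_ifs at h1 <;> omega
    · split_ifs at h1 <;> omega
    · split_ifs at h1 <;> omega
    · have := D.k_po h2 h1
      split_ifs at h1' <;> omega
    · have a := D.k_po h2 h1
      have a' := D.k_po h2' h1'
      have e : D.po u b = D.po u b' := by omega
      have := D.po_inj h2 h1 h1' e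
      omega
    · omega
    · omega
    · split_ifs at h1' <;> omega
    · omega
    · obtain rfl : z = z' := by omega
      rcases h3 with h3 | h3 | ⟨h3, h8, z1, h9, h10⟩ <;>
        rcases h3' with h3' | h3' | ⟨h3', h8', z1', h9', h10'⟩ <;> omega
    · omega
    · split_ifs at h1' <;> omega
    · omega
    · omega
    · omega
  · -- one
    rintro i u t u' t' ⟨hi, h⟩ ⟨-, h'⟩
    have z0 : ∀ u t, ((u = (if i + 1 = D.c then 0 else i + 1) ∧ t = i ∧ 0 = 0) ∨
       (∃ b, b < D.M ∧ u < D.c ∧ t = D.c + b ∧ D.k u b < D.q ∧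
          (i = u + 1 + D.po u b ∨ i + D.c = u + 1 + D.po u b) ∧ 0 = 2) ∨
       (∃ z, z < D.M ∧ u = D.c + z ∧
          ((D.q ≤ D.k i z ∧ t = i) ∨ (D.k i z < D.q ∧ dd i z = 0 ∧ t = D.c + D.M) ∨
            (D.k i z < D.q ∧ 0 < dd i z ∧ ∃ z', t = D.c + z' ∧
              (z' = z + dd i z ∧ z + dd i z < D.M ∨ z' + D.M = z + dd i z ∧ D.M ≤ z + dd i z))) ∧
          0 = D.lev i z) ∨
       (ev ∧ u = D.c + D.M ∧ t = i ∧ 0 = if i = 0 then 1 else D.M + 5)) →
        u = (if i + 1 = D.c then 0 else i + 1) := by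
      rintro u t (⟨h1, h2, h3⟩ | ⟨b, h1, h2, h3, h4, h5, h6⟩ | ⟨z, h1, h2, h3, h4⟩ |
        ⟨h1, h2, h3, h4⟩)
      · exact h1
      · omega
      · have := lev_le i z hi h1
        omega
      · split_ifs at h4
    rw [z0 u t h, z0 u' t' h']
  · -- lt
    have noroot : ∀ i t s, ¬ D.R ev dd i i t s := by
      rintro i t s ⟨hi, ⟨h1, h2, h3⟩ | ⟨b, h1, h2, h3, h4, h5, h6⟩ | ⟨z, h1, h2, h3, h4⟩ |
        ⟨h1, h2, h3, h4⟩⟩
      · split_ifs at h1 <;> omega
      · have a := D.k_po h2 h1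
        omega
      · omega
      · omega
    rintro i u t s t' s' ⟨hi, h⟩ h'
    rcases h with ⟨h1, h2, h3⟩ | ⟨b, h1, h2, h3, h4, h5, h6⟩ | ⟨z, h1, h2, h3, h4⟩ |
      ⟨h1, h2, h3, h4⟩
    · exact Or.inl h3
    · -- leaves
      right
      subst h3
      obtain ⟨-, ⟨h1', h2', h3'⟩ | ⟨b', h1', h2', h3', h4', h5', h6'⟩ | ⟨z', h1', h2', h3', h4'⟩ |
        ⟨h1', h2', h3', h4'⟩⟩ := h'
      · split_ifs at h1' <;> omega
      · omega
      · obtain rfl : b = z' := by omega
        have a := lev_le i b hi h1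
        have e2 := D.leaf_k hi h2 h1 h4 h5
        omega
      · omega
    · rcases h3 with ⟨h3, rfl⟩ | ⟨h3, h5, rfl⟩ | ⟨h3, h8, z', rfl, h10⟩
      · exact absurd h' (noroot _ _ _)
      · right
        have a := lev_le i z hi h1
        have a2 := hd4 i z hi h1 h3 h5
        obtain ⟨-, ⟨h1', h2', h3'⟩ | ⟨b', h1', h2', h3', h4', h5', h6'⟩ |
          ⟨z', h1', h2', h3', h4'⟩ | ⟨h1', h2', h3', h4'⟩⟩ := h'
        · split_ifs at h1' <;> omega
        · omega
        · omega
        · rw [if_neg a2.2] at h4'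
          omega
      · right
        have a := lev_le i z hi h1
        have a2 := hd2 i z hi h1 h3 h8
        have a3 := D.po_step hi h1 (d := dd i z) (z' := z') (by omega) h10
        have a4 := lev_le i z' hi a3.1
        have a5 := (D.k_po hi a3.1).2.2.2.2.2.2.2.1
        obtain ⟨-, ⟨h1', h2', h3'⟩ | ⟨b', h1', h2', h3', h4', h5', h6'⟩ |
          ⟨z1, h1', h2', h3', h4'⟩ | ⟨h1', h2', h3', h4'⟩⟩ := h'
        · split_ifs at h1' <;> omega
        · omega
        · obtain rfl : z' = z1 := by omega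
          omega
        · omega
    · subst h3
      exact absurd h' (noroot _ _ _)
  · -- top
    rintro i u t u' ⟨hi, ⟨h1, h2, h3⟩ | ⟨b, h1, h2, h3, h4, h5, h6⟩ | ⟨z, h1, h2, h3, h4⟩ |
      ⟨h1, h2, h3, h4⟩⟩ _
    · omega
    · omega
    · have := lev_le i z hi h1
      omega
    · split_ifs at h4 <;> omega
  · -- cover
    -- balls centred at vertices
    have hz : ∀ u, u < D.c → ∃ i t, D.R ev dd i u t 0 := by
      intro u hu
      rcases Nat.eq_zero_or_pos u with rfl | h0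
      · refine ⟨D.c - 1, D.c - 1, by omega, Or.inl ⟨?_, rfl, rfl⟩⟩
        rw [if_pos (by omega)]
      · refine ⟨u - 1, u - 1, by omega, Or.inl ⟨?_, rfl, rfl⟩⟩
        rw [if_neg (by omega)]
        omega
    -- the lowest ball at `z`
    have hlow : ∀ z, z < D.M → ∃ i t, D.R ev dd i (D.c + z) t 1 := by
      intro z hz
      have h1 := (D.hl z hz).1
      have h2 := (D.k_po h1 hz).2.2.2.2.2.2.2.2.2 rfl
      have h3 := (lev_le _ z h1 hz).2.2.2.2 h2
      have h4 : ∃ t, ((D.q ≤ D.k (D.l z) z ∧ t = D.l z) ∨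
        (D.k (D.l z) z < D.q ∧ dd (D.l z) z = 0 ∧ t = D.c + D.M) ∨
        (D.k (D.l z) z < D.q ∧ 0 < dd (D.l z) z ∧ ∃ z', t = D.c + z' ∧
          (z' = z + dd (D.l z) z ∧ z + dd (D.l z) z < D.M ∨
            z' + D.M = z + dd (D.l z) z ∧ D.M ≤ z + dd (D.l z) z))) := by
        by_cases a1 : D.q ≤ D.k (D.l z) z
        · exact ⟨D.l z, Or.inl ⟨a1, rfl⟩⟩
        · by_cases a2 : dd (D.l z) z = 0
          · exact ⟨D.c + D.M, Or.inr (Or.inl ⟨by omega, a2, rfl⟩)⟩
          · by_cases a3 : z + dd (D.l z) z < D.M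
            · exact ⟨_, Or.inr (Or.inr ⟨by omega, by omega, _, rfl, Or.inl ⟨rfl, a3⟩⟩)⟩
            · exact ⟨_, Or.inr (Or.inr ⟨by omega, by omega, z + dd (D.l z) z - D.M, rfl,
                Or.inr ⟨by omega, by omega⟩⟩)⟩
      obtain ⟨t, ht⟩ := h4
      exact ⟨D.l z, t, h1, Or.inr (Or.inr (Or.inl ⟨z, hz, rfl, ht, h3.symm⟩))⟩
    -- edges between `z` and `z'`
    have hzz : ∀ z z' d, z < D.M → z' < D.M → 1 ≤ d → d ≤ D.h →
        (z' = z + d ∧ z + d < D.M ∨ z' + D.M = z + d ∧ D.M ≤ z + d) →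
        ∃ i s, D.R ev dd i (D.c + z) (D.c + z') s ∧
          (s = D.M + 10 ∨ ∃ j t' s', D.R ev dd j (D.c + z') t' s' ∧ s' ≤ s) := by
      intro z z' d hz hz' hd hdh h
      obtain ⟨i, hi, hk, hdd⟩ := hd3 z d hz hd hdh
      obtain ⟨j, t', hj⟩ := hlow z' hz'
      refine ⟨i, D.lev i z, ⟨hi, Or.inr (Or.inr (Or.inl ⟨z, hz, rfl, Or.inr (Or.inr
        ⟨hk, by omega, z', rfl, by rw [hdd]; exact h⟩), rfl⟩))⟩, Or.inr ⟨j, t', 1, hj, ?_⟩⟩
      exact (lev_le i z hi hz).1
    -- edges between `u` and `z`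
    have huz : ∀ u z, u < D.c → z < D.M →
        (∃ i s, D.R ev dd i u (D.c + z) s ∧
          (s = D.M + 10 ∨ ∃ j t' s', D.R ev dd j (D.c + z) t' s' ∧ s' ≤ s)) ∨
        (∃ i s, D.R ev dd i (D.c + z) u s ∧
          (s = D.M + 10 ∨ ∃ j t' s', D.R ev dd j u t' s' ∧ s' ≤ s)) := by
      intro u z hu hz'
      have h1 := D.k_po hu hz'
      by_cases h : D.k u z < D.q
      · left
        obtain ⟨j, t', hj⟩ := hlow z hz'
        have h2 := h1.2.2.2.2.2.2.1 h
        by_cases h3 : u + 1 + D.po u z < D.c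
        · exact ⟨u + 1 + D.po u z, 2, ⟨h3, Or.inr (Or.inl ⟨z, hz', hu, rfl, h, Or.inl rfl, rfl⟩)⟩,
            Or.inr ⟨j, t', 1, hj, by omega⟩⟩
        · exact ⟨u + 1 + D.po u z - D.c, 2, ⟨by omega, Or.inr (Or.inl ⟨z, hz', hu, rfl, h,
            Or.inr (by omega), rfl⟩)⟩, Or.inr ⟨j, t', 1, hj, by omega⟩⟩
      · right
        obtain ⟨j, t', hj⟩ := hz u hu
        exact ⟨u, D.lev u z, ⟨hu, Or.inr (Or.inr (Or.inl ⟨z, hz', rfl, Or.inl ⟨by omega, rfl⟩,
          rfl⟩))⟩, Or.inr ⟨j, t', 0, hj, by omega⟩⟩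
    -- edges at infinity
    have hinf : ∀ w, w < D.c + D.M → D.c + D.M < n →
        (∃ i s, D.R ev dd i w (D.c + D.M) s ∧
          (s = D.M + 10 ∨ ∃ j t' s', D.R ev dd j (D.c + D.M) t' s' ∧ s' ≤ s)) ∨
        (∃ i s, D.R ev dd i (D.c + D.M) w s ∧
          (s = D.M + 10 ∨ ∃ j t' s', D.R ev dd j w t' s' ∧ s' ≤ s)) := by
      intro w hw hev'
      have he := hev.2 hev'
      by_cases hwc : w < D.c
      · right
        obtain ⟨j, t', hj⟩ := hz w hwc
        exact ⟨w, if w = 0 then 1 else D.M + 5, ⟨hwc, Or.inr (Or.inr (Or.inr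
          ⟨he, rfl, rfl, rfl⟩))⟩, Or.inr ⟨j, t', 0, hj, by omega⟩⟩
      · left
        obtain ⟨z, rfl⟩ : ∃ z, w = D.c + z := ⟨w - D.c, by omega⟩
        have hz' : z < D.M := by omega
        obtain ⟨i, hi, hk, hdd⟩ := hd5 he z hz'
        refine ⟨i, D.lev i z, ⟨hi, Or.inr (Or.inr (Or.inl ⟨z, hz', rfl, Or.inr (Or.inl
          ⟨hk, hdd, rfl⟩), rfl⟩))⟩, Or.inr ⟨0, 0, 1, ⟨by omega, Or.inr (Or.inr (Or.inr
            ⟨he, rfl, rfl, rfl⟩))⟩, (lev_le i z hi hz').1⟩⟩
    have main : ∀ u w, u < w → w < n →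
      (∃ i s, D.R ev dd i u w s ∧
        (s = D.M + 10 ∨ ∃ j t' s', D.R ev dd j w t' s' ∧ s' ≤ s)) ∨
      (∃ i s, D.R ev dd i w u s ∧
        (s = D.M + 10 ∨ ∃ j t' s', D.R ev dd j u t' s' ∧ s' ≤ s)) ∨
      ((∃ i t, D.R ev dd i u t 0) ∧ (∃ j t, D.R ev dd j w t 0)) := by
      intro u w huw hw
      by_cases hwM : w = D.c + D.M
      · subst hwM
        rcases hinf u huw hw with h | h
        · exact Or.inl h
        · exact Or.inr (Or.inl h)
      · by_cases hwc : w < D.c
        · exact Or.inr (Or.inr ⟨hz u (by omega), hz w hwc⟩)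
        · obtain ⟨z', rfl⟩ : ∃ z, w = D.c + z := ⟨w - D.c, by omega⟩
          have hz' : z' < D.M := by omega
          by_cases huc : u < D.c
          · rcases huz u z' huc hz' with h | h
            · exact Or.inl h
            · exact Or.inr (Or.inl h)
          · obtain ⟨z, rfl⟩ : ∃ z, u = D.c + z := ⟨u - D.c, by omega⟩
            by_cases hzz' : z' - z ≤ D.h
            · exact Or.inl (hzz z z' (z' - z) (by omega) hz' (by omega) hzz' (by omega))
            · exact Or.inr (Or.inl (hzz z' z (z + D.M - z') hz' (by omega) (by omega) (by omega)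
                (by omega)))
    intro u w hu hw huw
    rcases lt_or_gt_of_ne huw with h | h
    · exact main u w h hw
    · rcases main w u h hu with h | h | h
      · exact Or.inr (Or.inl h)
      · exact Or.inl h
      · exact Or.inr (Or.inr ⟨h.2, h.1⟩)

theorem exists_data {c M q L h : ℕ} (h1 : 5 ≤ c) (h2 : c ≤ M) (h3 : M = 2 * h + 1)
    (h5 : L + 2 = c) (h6 : M < 2 * c) (h7 : q * M ≤ c * L) :
    ∃ D : Data, D.c = c ∧ D.M = M ∧ D.q = q ∧ D.h = h ∧ D.L = L := by
  have hc : 0 < c := by omega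
  have p1 : ∀ i, (i + c) * M / c = i * M / c + M := by
    intro i
    rw [show (i + c) * M = i * M + M * c by ring, Nat.add_mul_div_right _ _ hc]
  have p2 : ∀ a b, a * M / c + b ≤ (a + b) * M / c := by
    intro a b
    rw [← Nat.add_mul_div_right _ _ hc]
    apply Nat.div_le_div_right
    rw [Nat.add_mul]
    exact Nat.add_le_add_left (Nat.mul_le_mul_left b h2) _
  have p3 : ∀ a, (a + 1) * M / c ≤ a * M / c + 2 := by
    intro a
    rw [← Nat.add_mul_div_right _ _ hc]
    apply Nat.div_le_div_right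
    rw [Nat.add_mul, one_mul]
    exact Nat.add_le_add_left h6.le _
  have p4 : ∀ a, (a + q) * M / c ≤ a * M / c + L := by
    intro a
    rw [← Nat.add_mul_div_right _ _ hc]
    apply Nat.div_le_div_right
    rw [Nat.add_mul]
    exact Nat.add_le_add_left (h7.trans (by rw [mul_comm])) _
  have hq : q ≤ L := by
    have : q * c ≤ L * c := (Nat.mul_le_mul_left q h2).trans (h7.trans (by rw [mul_comm]))
    exact Nat.le_of_mul_le_mul_right this hc
  have hl : ∀ z, ∃ l, z < M → l < c ∧ l * M / c ≤ z ∧ z < (l + 1) * M / c := by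
    intro z
    by_cases hz : z < M
    · have hex : ∃ l, z < (l + 1) * M / c := by
        refine ⟨c - 1, ?_⟩
        rw [show c - 1 + 1 = c by omega, Nat.mul_div_cancel_left _ hc]
        exact hz
      classical
      refine ⟨Nat.find hex, fun _ => ⟨?_, ?_, Nat.find_spec hex⟩⟩
      · have : Nat.find hex ≤ c - 1 := by
          apply Nat.find_min'
          rw [show c - 1 + 1 = c by omega, Nat.mul_div_cancel_left _ hc]
          exact hz
        omega
      · by_contra hcon
        push Not at hcon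
        rcases Nat.eq_zero_or_pos (Nat.find hex) with h0 | h0
        · rw [h0, Nat.zero_mul, Nat.zero_div] at hcon
          omega
        · have := Nat.find_min hex (m := Nat.find hex - 1) (by omega)
          apply this
          rw [show Nat.find hex - 1 + 1 = Nat.find hex by omega]
          exact hcon
    · exact ⟨0, fun h => absurd h hz⟩
  choose l hl using hl
  exact ⟨{ c := c, M := M, q := q, L := L, h := h, p := fun i => i * M / c, l := l, hc := h1,
           hcM := h2, hM := h3, hq := hq, hL := h5, p0 := by simp, p1 := p1, p2 := p2, p3 := p3,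
           p4 := p4, hl := hl }, rfl, rfl, rfl, rfl, rfl⟩

end Data

theorem exists_scheme {n c : ℕ} (h1 : 2 * c < n) (h2 : n * (n - 1) + 5 * c ≤ c ^ 2 + 2 * n * c)
    (hc0 : 0 < c) : ∃ T R, Scheme n c T R := by
  obtain ⟨m, rfl⟩ : ∃ m, n = m + c := ⟨n - c, by omega⟩
  have hm : c + 1 ≤ m := by omega
  have h3 : m * (m - 1) + 4 * c ≤ 2 * (c * c) := by
    obtain ⟨a, rfl⟩ : ∃ a, m = a + 1 := ⟨m - 1, by omega⟩
    rw [Nat.add_sub_cancel]
    have : a + 1 + c - 1 = a + c := by omega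
    rw [this] at h2
    nlinarith
  have hc5 : 5 ≤ c := by
    obtain ⟨a, rfl⟩ : ∃ a, m = c + 1 + a := ⟨m - (c + 1), by omega⟩
    rw [show c + 1 + a - 1 = c + a by omega] at h3
    by_contra hcon
    push Not at hcon
    have : (c + 1) * c + 4 * c ≤ 2 * (c * c) := by nlinarith
    have : 5 ≤ c := by
      by_contra hcon
      push Not at hcon
      interval_cases c <;> omega
    omega
  obtain ⟨L, hL⟩ : ∃ L, L + 2 = c := ⟨c - 2, by omega⟩
  have h4 : m * (m - 1) ≤ 2 * (c * L) := by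
    subst hL
    nlinarith
  have hm2 : m ≤ 2 * c := by
    by_contra hcon
    push Not at hcon
    obtain ⟨a, rfl⟩ : ∃ a, m = a + 1 := ⟨m - 1, by omega⟩
    rw [Nat.add_sub_cancel] at h3
    have : (2 * c) * (2 * c) ≤ (a + 1) * a := Nat.mul_le_mul (by omega) (by omega)
    nlinarith
  rcases Nat.even_or_odd m with hev | hodd
  · -- `m` is even
    obtain ⟨g, hg⟩ := hev
    obtain ⟨h, rfl⟩ : ∃ h, g = h + 1 := ⟨g - 1, by omega⟩
    obtain rfl : m = 2 * h + 1 + 1 := by omega
    have h5 : (h + 1) * (2 * h + 1) ≤ c * L := by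
      rw [Nat.add_sub_cancel] at h4
      nlinarith
    obtain ⟨D, rfl, d2, d3, d4, d5⟩ := Data.exists_data (M := 2 * h + 1) (q := h + 1) (h := h)
      hc5 (by omega) rfl hL (by omega) h5
    refine ⟨_, _, D.scheme2 (n := 2 * h + 1 + 1 + D.c) (ev := True)
      (dd := fun i z => if D.l z = 0 then (if D.k i z = 0 then h else if D.k i z = 1 then 0 else
        h + 1 - D.k i z) else (if D.k i z = 0 then 0 else h + 1 - D.k i z))
      (by omega) (by omega) (by simp only [true_iff]; omega) ?_ ?_ ?_ ?_ ?_⟩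
    · intro i z hi hz hk
      split_ifs <;> omega
    · intro i z hi hz hk hdd
      have a := D.k_po hi hz
      have a1 := D.hq
      split_ifs at hdd ⊢ <;> omega
    · intro z d hz hd hdh
      by_cases hl : D.l z = 0
      · by_cases hdh' : d = h
        · obtain ⟨i, hi, hk, -⟩ := D.exists_k hz (κ := 0) (by omega)
          refine ⟨i, hi, by omega, ?_⟩
          rw [if_pos hl, if_pos hk]
          exact hdh'.symm
        · obtain ⟨i, hi, hk, -⟩ := D.exists_k hz (κ := h + 1 - d) (by omega)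
          refine ⟨i, hi, by omega, ?_⟩
          rw [if_pos hl, if_neg (by omega), if_neg (by omega)]
          omega
      · obtain ⟨i, hi, hk, -⟩ := D.exists_k hz (κ := h + 1 - d) (by omega)
        refine ⟨i, hi, by omega, ?_⟩
        rw [if_neg hl, if_neg (by omega)]
        omega
    · intro i z hi hz hk hdd
      refine ⟨trivial, ?_⟩
      have a := D.k_po hi hz
      split_ifs at hdd <;> omega
    · intro _ z hz
      by_cases hl : D.l z = 0
      · obtain ⟨i, hi, hk, -⟩ := D.exists_k hz (κ := 1) (by omega)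
        refine ⟨i, hi, by omega, ?_⟩
        rw [if_pos hl, if_neg (by omega), if_pos hk]
      · obtain ⟨i, hi, hk, -⟩ := D.exists_k hz (κ := 0) (by omega)
        refine ⟨i, hi, by omega, ?_⟩
        rw [if_neg hl, if_pos hk]
  · -- `m` is odd
    obtain ⟨h, hh⟩ := hodd
    obtain rfl : m = 2 * h + 1 := by omega
    have h5 : h * (2 * h + 1) ≤ c * L := by
      rw [Nat.add_sub_cancel] at h4
      nlinarith
    obtain ⟨D, rfl, d2, d3, d4, d5⟩ := Data.exists_data (M := 2 * h + 1) (q := h) (h := h)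
      hc5 (by omega) rfl hL (by omega) h5
    refine ⟨_, _, D.scheme2 (n := 2 * h + 1 + D.c) (ev := False)
      (dd := fun i z => h - D.k i z)
      (by omega) (by omega) (by simp only [false_iff]; omega) ?_ ?_ ?_ ?_ ?_⟩
    · intro i z hi hz hk
      omega
    · intro i z hi hz hk hdd
      have a := D.k_po hi hz
      have a1 := D.hq
      omega
    · intro z d hz hd hdh
      obtain ⟨i, hi, hk, -⟩ := D.exists_k hz (κ := h - d) (by omega)
      exact ⟨i, hi, by omega, by omega⟩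
    · intro i z hi hz hk hdd
      omega
    · exact fun h => h.elim


/-! ### The theorem -/

theorem Colourable.mono {r : ℝ} {c c' : ℕ} (h : Colourable G r c) (hc : c ≤ c') :
    Colourable G r c' := by
  obtain ⟨F, f, h1, h2, h3⟩ := h
  refine ⟨F, fun B => Fin.castLE hc (f B), h1, h2, fun B B' hne hint heq => ?_⟩
  exact h3 B B' hne hint (Fin.castLE_injective hc heq)

theorem colourable_iff (n c : ℕ) : Colourable (⊤ : SimpleGraph (Fin n)) (1 / 2) c ↔
    n ≤ 2 * c ∨ (1 ≤ c ∧ n * (n - 1) + 5 * c ≤ c ^ 2 + 2 * n * c) := by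
  rcases Nat.lt_or_ge n 2 with hn | hn
  · -- at most one vertex
    have h01 : n = 0 ∨ n = 1 := by omega
    rcases h01 with rfl | rfl
    · refine ⟨fun _ => Or.inl (by omega), fun _ => ?_⟩
      refine Colourable.mono (c := 0) ?_ (by omega)
      have hE : ∀ p : Pt (⊤ : SimpleGraph (Fin 0)), False := by
        intro p
        have := p.sum_eq
        simp at this
      refine ⟨∅, fun B => absurd B.2 (Set.notMem_empty _), by simp, ?_, ?_⟩
      · rw [Set.eq_univ_iff_forall]
        exact fun p => (hE p).elim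
      · rintro ⟨B, hB⟩
        exact absurd hB (Set.notMem_empty _)
    · have huniq : ∀ p q : Pt (⊤ : SimpleGraph (Fin 1)), p = q := by
        intro p q
        apply Pt.ext
        intro w
        have hp := p.sum_eq
        have hq := q.sum_eq
        rw [Fin.sum_univ_one] at hp hq
        rw [Subsingleton.elim w 0, hp, hq]
      constructor
      · rintro ⟨F, f, h1, h2, h3⟩
        left
        have : pt (0 : Fin 1) 0 0 le_rfl zero_le_one ∈ ⋃₀ F := by rw [h2]; trivial
        obtain ⟨B, hB, _⟩ := this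
        have := (f ⟨B, hB⟩).2
        omega
      · intro h
        refine Colourable.mono (c := 1) ?_ (by omega)
        refine ⟨{ball (pt (0 : Fin 1) 0 0 le_rfl zero_le_one) (1 / 2)}, fun _ => 0, ?_, ?_, ?_⟩
        · rintro B hB
          exact ⟨_, hB⟩
        · rw [Set.sUnion_singleton, Set.eq_univ_iff_forall]
          intro q
          rw [huniq q (pt (0 : Fin 1) 0 0 le_rfl zero_le_one), mem_ball_iff]
          left
          refine ⟨0, 0, fun w hw => absurd (Subsingleton.elim w 0) hw, ?_⟩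
          rw [sub_self, abs_zero]
          norm_num
        · rintro ⟨B, hB⟩ ⟨B', hB'⟩ hne
          exact absurd (Subtype.ext (hB.trans hB'.symm)) hne
  · constructor
    · intro h
      rcases lower hn h with h1 | h1
      · exact Or.inl h1
      · right
        refine ⟨?_, h1⟩
        by_contra hc
        obtain rfl : c = 0 := by omega
        have h2 : n * (n - 1) ≤ 0 := by simpa using h1
        have h3 : 2 * 1 ≤ n * (n - 1) := Nat.mul_le_mul hn (by omega)
        omega
    · intro h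
      by_cases h1 : n ≤ 2 * c
      · exact (scheme1 hn h1).colourable hn (by omega)
      · rcases h with h | ⟨h2, h3⟩
        · exact absurd h h1
        · obtain ⟨T, R, hR⟩ := exists_scheme (by omega) h3 (by omega)
          exact hR.colourable hn (by omega)

theorem chi_le_iff (n c : ℕ) : chi (⊤ : SimpleGraph (Fin n)) (1 / 2) ≤ c ↔
    n ≤ 2 * c ∨ (1 ≤ c ∧ n * (n - 1) + 5 * c ≤ c ^ 2 + 2 * n * c) := by
  rw [← colourable_iff]
  constructor
  · intro h
    have hne : {c | Colourable (⊤ : SimpleGraph (Fin n)) (1 / 2) c}.Nonempty :=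
      ⟨n, (colourable_iff n n).2 (Or.inl (by omega))⟩
    exact Colourable.mono (Nat.sInf_mem hne) h
  · intro h
    exact Nat.sInf_le h

/-- **The `1/2`-chromatic number of the continuous complete graph.** -/
theorem result :
    (∀ n : ℕ, (chi (⊤ : SimpleGraph (Fin n)) (1 / 2) : ℤ) =
      min ⌈(n : ℝ) / 2⌉ ⌈(5 - 2 * n + √(8 * n ^ 2 - 24 * n + 25)) / 2⌉) ∧
    (∀ n c : ℕ, Colourable (⊤ : SimpleGraph (Fin n)) (1 / 2) c ↔
      n ≤ 2 * c ∨ (1 ≤ c ∧ n * (n - 1) + 5 * c ≤ c ^ 2 + 2 * n * c)) ∧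
    (∀ n : ℕ, (chi (⊤ : SimpleGraph (Fin n)) (1 / 2) : ℤ) < ⌈(n : ℝ) / 2⌉ ↔
      n = 11 ∨ n = 13 ∨ n = 15 ∨ 17 ≤ n) := by
  have hceil : ∀ n c : ℕ, ⌈(n : ℝ) / 2⌉ ≤ (c : ℤ) ↔ n ≤ 2 * c := by
    intro n c
    rw [Int.ceil_le]
    push_cast
    rw [div_le_iff₀ (by norm_num)]
    constructor
    · intro h
      have : (n : ℝ) ≤ ((2 * c : ℕ) : ℝ) := by push_cast; linarith
      exact_mod_cast this
    · intro h
      have : (n : ℝ) ≤ ((2 * c : ℕ) : ℝ) := by exact_mod_cast h
      push_cast at this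
      linarith
  have hcast : ∀ n c : ℕ, (n * (n - 1) + 5 * c ≤ c ^ 2 + 2 * n * c) ↔
      (8 * (n : ℝ) ^ 2 - 24 * n + 25) ≤ (2 * c + 2 * n - 5) ^ 2 := by
    intro n c
    have e : ((n * (n - 1) : ℕ) : ℝ) = (n : ℝ) ^ 2 - n := by
      rcases Nat.eq_zero_or_pos n with rfl | h
      · simp
      · rw [Nat.cast_mul, Nat.cast_sub h]
        push_cast
        ring
    constructor
    · intro h
      have h' : ((n * (n - 1) + 5 * c : ℕ) : ℝ) ≤ ((c ^ 2 + 2 * n * c : ℕ) : ℝ) := by
        exact_mod_cast h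
      rw [Nat.cast_add, e] at h'
      push_cast at h'
      nlinarith
    · intro h
      have h' : ((n * (n - 1) + 5 * c : ℕ) : ℝ) ≤ ((c ^ 2 + 2 * n * c : ℕ) : ℝ) := by
        rw [Nat.cast_add, e]
        push_cast
        nlinarith
      exact_mod_cast h'
  have hroot : ∀ n c : ℕ, ⌈(5 - 2 * (n : ℝ) + √(8 * n ^ 2 - 24 * n + 25)) / 2⌉ ≤ (c : ℤ) ↔
      (1 ≤ c ∧ n * (n - 1) + 5 * c ≤ c ^ 2 + 2 * n * c) := by
    intro n c
    have hn0 : (0 : ℝ) ≤ n := Nat.cast_nonneg n
    have hdisc : (0 : ℝ) < 8 * n ^ 2 - 24 * n + 25 := by nlinarith [sq_nonneg ((n : ℝ) - 3 / 2)]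
    rw [Int.ceil_le, div_le_iff₀ (by norm_num), hcast]
    push_cast
    constructor
    · intro h
      have h1 : √(8 * (n : ℝ) ^ 2 - 24 * n + 25) ≤ 2 * c + 2 * n - 5 := by linarith
      have h2 := Real.sqrt_nonneg (8 * (n : ℝ) ^ 2 - 24 * n + 25)
      have h3 := (Real.sqrt_le_left (by linarith)).1 h1
      refine ⟨?_, h3⟩
      by_contra hc
      obtain rfl : c = 0 := by omega
      push_cast at h1 h3
      have h4 : (3 : ℝ) ≤ n := by
        by_contra hcon
        push Not at hcon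
        have : n < 3 := by exact_mod_cast hcon
        have : (n : ℝ) ≤ 2 := by exact_mod_cast (by omega : n ≤ 2)
        linarith
      nlinarith
    · rintro ⟨h1, h2⟩
      have hc1 : (1 : ℝ) ≤ c := by exact_mod_cast h1
      have h3 : (0 : ℝ) ≤ 2 * c + 2 * n - 5 := by
        by_contra hcon
        push Not at hcon
        have h4 : 2 * c + 2 * n < 5 := by
          have : ((2 * c + 2 * n : ℕ) : ℝ) < 5 := by push_cast; linarith
          exact_mod_cast this
        have h5 := (hcast n c).2 h2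
        have h6 : c ≤ 2 := by omega
        have h7 : n ≤ 1 := by omega
        interval_cases n <;> interval_cases c <;> omega
      have h4 := (Real.sqrt_le_left h3).2 h2
      linarith
  have hchi : ∀ n c : ℕ, chi (⊤ : SimpleGraph (Fin n)) (1 / 2) ≤ c ↔
      min ⌈(n : ℝ) / 2⌉ ⌈(5 - 2 * (n : ℝ) + √(8 * n ^ 2 - 24 * n + 25)) / 2⌉ ≤ (c : ℤ) := by
    intro n c
    rw [chi_le_iff, min_le_iff, hceil, hroot]
  refine ⟨?_, colourable_iff, ?_⟩
  · intro n
    set m := min ⌈(n : ℝ) / 2⌉ ⌈(5 - 2 * (n : ℝ) + √(8 * n ^ 2 - 24 * n + 25)) / 2⌉ with hm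
    have hm0 : 0 ≤ m := by
      have h1 : 0 ≤ ⌈(n : ℝ) / 2⌉ := Int.ceil_nonneg (by positivity)
      refine le_min h1 ?_
      by_contra hcon
      push Not at hcon
      have := (hroot n 0).1 (by push_cast; exact hcon.le)
      omega
    obtain ⟨k, hk⟩ := Int.eq_ofNat_of_zero_le hm0
    have h1 : chi (⊤ : SimpleGraph (Fin n)) (1 / 2) ≤ k := (hchi n k).2 (by rw [← hm, hk])
    have h2 : m ≤ (chi (⊤ : SimpleGraph (Fin n)) (1 / 2) : ℤ) := (hchi n _).1 le_rfl
    omega
  · intro n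
    have h1 : ∀ x : ℕ, ((x : ℤ) < ⌈(n : ℝ) / 2⌉ ↔ 2 * x < n) := by
      intro x
      rw [← not_le, hceil, not_le]
    rw [h1]
    constructor
    · intro h
      by_contra hcon
      rw [not_or, not_or, not_or] at hcon
      have h2 : chi (⊤ : SimpleGraph (Fin n)) (1 / 2) ≤ (n - 1) / 2 := by omega
      rw [chi_le_iff] at h2
      have h3 : n ≤ 16 := by omega
      obtain ⟨a, b, d, _⟩ := hcon
      interval_cases n <;> omega
    · intro h
      have h2 : chi (⊤ : SimpleGraph (Fin n)) (1 / 2) ≤ (n - 1) / 2 := by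
        rw [chi_le_iff]
        right
        rcases Nat.even_or_odd n with ⟨g, hg⟩ | ⟨g, hg⟩
        · obtain ⟨c, rfl⟩ : ∃ c, g = c + 1 := ⟨g - 1, by omega⟩
          have e : (n - 1) / 2 = c := by omega
          rw [e]
          have hc : 8 ≤ c := by omega
          obtain rfl : n = 2 * c + 1 + 1 := by omega
          refine ⟨by omega, ?_⟩
          rw [Nat.add_sub_cancel]
          nlinarith
        · have e : (n - 1) / 2 = g := by omega
          rw [e]
          have hc : 5 ≤ g := by omega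
          subst hg
          refine ⟨by omega, ?_⟩
          rw [Nat.add_sub_cancel]
          nlinarith
      omega

end Pool.Agent.Results.MP_4befb3_co.CompleteGraphs
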